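import Pool.Agent.helper52.IR.Spec

/-!
# Project IR (MP_07c750_an), row ALM: Lemma AL
-/

open scoped MatrixGroups ContDiff Topology UpperHalfPlane ComplexConjugate
open UpperHalfPlane MeasureTheory Filter Set

set_option autoImplicit false

namespace Pool.Agent.IR

open Pool.Agent.RS

theorem ALM_psc (P : Finset ℤ) : Continuous (ps P) := by
  unfold ps
  fun_prop

theorem ALM_psb (P : Finset ℤ) (s : ℝ) : ‖ps P s‖ ≤ P.card := by
  unfold ps
  refine (norm_sum_le _ _).trans ?_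
  simp only [Complex.norm_exp_ofReal_mul_I, Finset.sum_const, nsmul_eq_mul, mul_one, le_refl]

theorem ALM_n (S : Finset ℤ) (P : ℤ → Finset ℤ) (X : ℤ → ℝ) (w u : ℝ) : 0 ≤ GG S P X w u := by
  unfold GG
  exact Finset.sum_nonneg fun i _ => by positivity

theorem ALM_b {S : Finset ℤ} {P : ℤ → Finset ℤ} {X : ℤ → ℝ} {M M1 F ϑ : ℝ} (h : STR S P X M M1 F ϑ) (w u : ℝ) : GG S P X w u ≤ M * F ^ 2 := by
  unfold GG
  have h1 : ∀ i ∈ S, ‖ps (P i) (om w (X i) * u)‖ ^ 2 ≤ F ^ 2 := by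
    intro i hi
    exact pow_le_pow_left₀ (norm_nonneg _) ((ALM_psb _ _).trans (h.f0 i hi)) 2
  refine (Finset.sum_le_card_nsmul _ _ _ h1).trans ?_
  rw [nsmul_eq_mul]
  exact mul_le_mul_of_nonneg_right h.m0 (by positivity)

theorem ALM_m (S : Finset ℤ) (P : ℤ → Finset ℤ) (X : ℤ → ℝ) : Measurable fun q : ℝ × ℝ => GG S P X q.1 q.2 := by
  unfold GG om
  refine Finset.measurable_sum _ fun i _ => ?_
  refine Measurable.pow_const (Measurable.norm ((ALM_psc (P i)).measurable.comp ?_)) 2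
  fun_prop

theorem ALM_c (S : Finset ℤ) (P : ℤ → Finset ℤ) (X : ℤ → ℝ) (w : ℝ) : Continuous fun u : ℝ => GG S P X w u := by
  unfold GG
  refine continuous_finsetSum _ fun i _ => ?_
  exact ((ALM_psc (P i)).comp (continuous_const.mul continuous_id)).norm.pow 2

/-- extraction of a point -/
theorem ALM_ex (f : ℝ → ℝ) (a b c K : ℝ) (hab : a < b) (hm : StronglyMeasurable f) (h0 : ∀ x, 0 ≤ f x) (hK : ∀ x, f x ≤ K) (h : ∫ x in Icc a b, f x ≤ c) :
    ∃ x ∈ Icc a b, f x ≤ c / (b - a) := by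
  have hv : volume (Icc a b) = ENNReal.ofReal (b - a) := Real.volume_Icc
  have h1 : IntegrableOn f (Icc a b) := by
    refine Measure.integrableOn_of_bounded (M := K) (by rw [hv]; exact ENNReal.ofReal_ne_top) hm.aestronglyMeasurable (Eventually.of_forall fun x => ?_)
    rw [Real.norm_of_nonneg (h0 x)]
    exact hK x
  obtain ⟨x, hx, h2⟩ := exists_le_setAverage (by rw [hv]; simpa using hab) (by rw [hv]; exact ENNReal.ofReal_ne_top) h1
  refine ⟨x, hx, h2.trans ?_⟩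
  rw [setAverage_eq, smul_eq_mul, Real.volume_real_Icc_of_le hab.le, div_eq_inv_mul]
  exact mul_le_mul_of_nonneg_left h (by simpa using hab.le)

/-- Cauchy-Schwarz from the inequality of the means -/
theorem ALM_cs (A y J : ℝ) (hy : 0 ≤ y) (hJ : 0 ≤ J) (h : ∀ l : ℝ, 0 < l → A ≤ l * y ^ 2 / 2 + J / (2 * l)) : A ≤ y * Real.sqrt J := by
  rcases hJ.eq_or_lt with h1 | h1
  · rw [← h1, Real.sqrt_zero, mul_zero]
    refine le_of_forall_pos_le_add fun ε hε => ?_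
    have h2 := h (ε / (y ^ 2 + 1)) (by positivity)
    rw [← h1, zero_div, add_zero] at h2
    refine h2.trans ?_
    rw [zero_add, div_mul_eq_mul_div, div_div, div_le_iff₀ (by positivity)]
    nlinarith [sq_nonneg y]
  · rcases hy.eq_or_lt with h2 | h2
    · rw [← h2, zero_mul]
      refine le_of_forall_pos_le_add fun ε hε => ?_
      have h3 := h (J / ε) (by positivity)
      rw [← h2] at h3
      have h4 : J / ε * 0 ^ 2 / 2 + J / (2 * (J / ε)) = ε / 2 := by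
        field_simp
        ring
      linarith
    · have h3 := h (Real.sqrt J / y) (by positivity)
      have h5 : Real.sqrt J * Real.sqrt J = J := Real.mul_self_sqrt hJ
      have h6 : 0 < Real.sqrt J := Real.sqrt_pos.2 h1
      have h4 : Real.sqrt J / y * y ^ 2 / 2 + J / (2 * (Real.sqrt J / y)) = y * Real.sqrt J := by
        have h7 : J / (2 * (Real.sqrt J / y)) = y * Real.sqrt J / 2 := by
          rw [div_eq_div_iff (by positivity) (by positivity)]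
          calc J * 2 = (Real.sqrt J * Real.sqrt J) * 2 := by rw [h5]
            _ = y * Real.sqrt J * (2 * (Real.sqrt J / y)) := by field_simp
        have h8 : Real.sqrt J / y * y ^ 2 / 2 = y * Real.sqrt J / 2 := by field_simp
        rw [h7, h8]
        ring
      linarith

section two

variable (H : ℝ → ℝ) (Y : Set ℝ) (θ : ℝ)

theorem ALM_set (v : ℝ) : MeasurableSet {v' : ℝ | θ ≤ |v - v'|} := measurableSet_le measurable_const (by fun_prop)

theorem ALM_ind (κ v : ℝ) : ∫ v' in Y ∩ {v' | θ ≤ |v - v'|}, H (κ * (v - v')) = ∫ v' in Y, {q : ℝ × ℝ | θ ≤ |q.1 - q.2|}.indicator (fun q => H (κ * (q.1 - q.2))) (v, v') := by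
  rw [← setIntegral_indicator (ALM_set θ v)]
  rfl

theorem ALM_sm2 (hH : Measurable H) (κ : ℝ) : StronglyMeasurable fun v : ℝ => ∫ v' in Y ∩ {v' | θ ≤ |v - v'|}, H (κ * (v - v')) := by
  have h1 : StronglyMeasurable (fun q : ℝ × ℝ => {q : ℝ × ℝ | θ ≤ |q.1 - q.2|}.indicator (fun q => H (κ * (q.1 - q.2))) q) := by
    refine Measurable.stronglyMeasurable (Measurable.indicator (hH.comp (by fun_prop)) (measurableSet_le measurable_const (by fun_prop)))
  have h2 := h1.integral_prod_right' (ν := volume.restrict Y)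
  simp only [ALM_ind]
  exact h2

theorem ALM_sm3 (hH : Measurable H) : StronglyMeasurable fun κ : ℝ => ∫ v in Y, ∫ v' in Y ∩ {v' | θ ≤ |v - v'|}, H (κ * (v - v')) := by
  have h1 : StronglyMeasurable (fun q : (ℝ × ℝ) × ℝ => {q : (ℝ × ℝ) × ℝ | θ ≤ |q.1.2 - q.2|}.indicator (fun q => H (q.1.1 * (q.1.2 - q.2))) q) := by
    refine Measurable.stronglyMeasurable (Measurable.indicator (hH.comp (by fun_prop)) (measurableSet_le measurable_const (by fun_prop)))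
  have h2 := (h1.integral_prod_right' (ν := volume.restrict Y)).integral_prod_right' (ν := volume.restrict Y)
  simp only [ALM_ind]
  exact h2

end two

/-- bounds of integrals -/
theorem ALM_in (s : Set ℝ) (hs : s ⊆ Icc 0 1) (f : ℝ → ℝ) (K : ℝ) (h0 : ∀ x, 0 ≤ f x) (hK : ∀ x, f x ≤ K) : 0 ≤ ∫ x in s, f x ∧ ∫ x in s, f x ≤ K * volume.real s ∧ ∫ x in s, f x ≤ K := by
  have hv : volume s ≤ 1 := (measure_mono hs).trans (by rw [Real.volume_Icc]; norm_num)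
  have hv2 : volume s < ⊤ := lt_of_le_of_lt hv ENNReal.one_lt_top
  have h1 : ‖∫ x in s, f x‖ ≤ K * volume.real s := norm_setIntegral_le_of_norm_le_const hv2 fun x _ => by
    rw [Real.norm_of_nonneg (h0 x)]
    exact hK x
  have h2 : 0 ≤ ∫ x in s, f x := integral_nonneg h0
  rw [Real.norm_of_nonneg h2] at h1
  have h3 : volume.real s ≤ 1 := by
    have h4 := ENNReal.toReal_mono ENNReal.one_ne_top hv
    simpa [Measure.real] using h4
  have h5 : 0 ≤ K := (h0 0).trans (hK 0)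
  exact ⟨h2, h1, h1.trans (by nlinarith)⟩

theorem ALM_ib (s : Set ℝ) (hs : s ⊆ Icc 0 1) (f : ℝ → ℝ) (K : ℝ) (hm : StronglyMeasurable f) (h0 : ∀ x, 0 ≤ f x) (hK : ∀ x, f x ≤ K) : IntegrableOn f s := by
  have hv : volume s ≤ 1 := (measure_mono hs).trans (by rw [Real.volume_Icc]; norm_num)
  refine Measure.integrableOn_of_bounded (M := K) (ne_top_of_le_ne_top ENNReal.one_ne_top hv) hm.aestronglyMeasurable (Eventually.of_forall fun x => ?_)
  rw [Real.norm_of_nonneg (h0 x)]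
  exact hK x

section three

variable (G : ℝ → ℝ) (Y : Set ℝ) (θ κ B y0 y1 : ℝ)

theorem ALM_split (hG : Continuous G) (h0 : ∀ u, 0 ≤ G u) (hB : ∀ u, G u ≤ B) (hY : MeasurableSet Y) (hY1 : Y ⊆ Icc 0 1) (hy0 : volume.real Y ≤ y0)
    (hy1 : ∀ v : ℝ, volume.real (Y ∩ Icc (v - θ) (v + θ)) ≤ y1) (l : ℝ) (hl : 0 < l) (v : ℝ) :
    ∫ v' in Y, G (κ * (v - v')) ≤ (B * y1 + l * y0 / 2) + 1 / (2 * l) * ∫ v' in Y ∩ {v' | θ ≤ |v - v'|}, G (κ * (v - v')) ^ 2 := by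
  have hB0 : 0 ≤ B := (h0 0).trans (hB 0)
  have hYv : volume Y ≤ 1 := (measure_mono hY1).trans (by rw [Real.volume_Icc]; norm_num)
  have hYt : volume Y ≠ ⊤ := ne_top_of_le_ne_top ENNReal.one_ne_top hYv
  have hm : Measurable fun v' : ℝ => G (κ * (v - v')) := hG.measurable.comp (by fun_prop)
  have hi : IntegrableOn (fun v' : ℝ => G (κ * (v - v'))) Y := ALM_ib Y hY1 _ B hm.stronglyMeasurable (fun _ => h0 _) fun _ => hB _
  have hi2 : IntegrableOn (fun v' : ℝ => G (κ * (v - v')) ^ 2) Y := ALM_ib Y hY1 _ (B ^ 2) (hm.pow_const 2).stronglyMeasurable (fun _ => sq_nonneg _) fun _ => pow_le_pow_left₀ (h0 _) (hB _) 2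
  rw [← integral_inter_add_sdiff (ALM_set θ v) hi]
  have hA : ∫ v' in Y \ {v' | θ ≤ |v - v'|}, G (κ * (v - v')) ≤ B * y1 := by
    refine (ALM_in _ (sdiff_subset.trans hY1) _ B (fun _ => h0 _) fun _ => hB _).2.1.trans (mul_le_mul_of_nonneg_left ?_ hB0)
    refine le_trans ?_ (hy1 v)
    refine measureReal_mono ?_ (ne_top_of_le_ne_top hYt (measure_mono inter_subset_left))
    rintro x ⟨hx, hx2⟩
    refine ⟨hx, ?_⟩
    have h3 : |v - x| < θ := not_le.1 hx2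
    rw [abs_lt] at h3
    exact ⟨by linarith, by linarith⟩
  have hC : ∫ v' in Y ∩ {v' | θ ≤ |v - v'|}, G (κ * (v - v')) ≤ l * y0 / 2 + 1 / (2 * l) * ∫ v' in Y ∩ {v' | θ ≤ |v - v'|}, G (κ * (v - v')) ^ 2 := by
    have hsub : Y ∩ {v' | θ ≤ |v - v'|} ⊆ Y := inter_subset_left
    have h4 : ∫ v' in Y ∩ {v' | θ ≤ |v - v'|}, G (κ * (v - v')) ≤ ∫ v' in Y ∩ {v' | θ ≤ |v - v'|}, (l / 2 + 1 / (2 * l) * G (κ * (v - v')) ^ 2) := by
      refine setIntegral_mono (hi.mono_set hsub) ?_ fun x => ?_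
      · refine Integrable.add ?_ ((hi2.mono_set hsub).const_mul _)
        exact integrableOn_const (ne_top_of_le_ne_top hYt (measure_mono hsub))
      · show G (κ * (v - x)) ≤ l / 2 + 1 / (2 * l) * G (κ * (v - x)) ^ 2
        have h5 : 0 ≤ (l - G (κ * (v - x))) ^ 2 := sq_nonneg _
        have h6 : l / 2 + 1 / (2 * l) * G (κ * (v - x)) ^ 2 - G (κ * (v - x)) = (l - G (κ * (v - x))) ^ 2 / (2 * l) := by
          field_simp
          ring
        have h7 : 0 ≤ (l - G (κ * (v - x))) ^ 2 / (2 * l) := by positivity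
        linarith
    have hk1 : IntegrableOn (fun _ : ℝ => l / 2) (Y ∩ {v' | θ ≤ |v - v'|}) := integrableOn_const (ne_top_of_le_ne_top hYt (measure_mono hsub))
    have hk2 : IntegrableOn (fun v' : ℝ => 1 / (2 * l) * G (κ * (v - v')) ^ 2) (Y ∩ {v' | θ ≤ |v - v'|}) := (hi2.mono_set hsub).const_mul _
    rw [integral_add hk1 hk2, integral_const_mul, setIntegral_const, smul_eq_mul] at h4
    have h8 : volume.real (Y ∩ {v' | θ ≤ |v - v'|}) ≤ y0 := (measureReal_mono hsub hYt).trans hy0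
    have h9 : volume.real (Y ∩ {v' | θ ≤ |v - v'|}) * (l / 2) ≤ l * y0 / 2 := by
      calc volume.real (Y ∩ {v' | θ ≤ |v - v'|}) * (l / 2) ≤ y0 * (l / 2) := mul_le_mul_of_nonneg_right h8 (by positivity)
        _ = l * y0 / 2 := by ring
    linarith
  linarith

theorem ALM_dbl (hG : Continuous G) (h0 : ∀ u, 0 ≤ G u) (hB : ∀ u, G u ≤ B) (hY : MeasurableSet Y) (hY1 : Y ⊆ Icc 0 1) (hy0 : volume.real Y ≤ y0)
    (hy1 : ∀ v : ℝ, volume.real (Y ∩ Icc (v - θ) (v + θ)) ≤ y1) (J : ℝ) (hJ : ∫ v in Y, ∫ v' in Y ∩ {v' | θ ≤ |v - v'|}, G (κ * (v - v')) ^ 2 ≤ J) :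
    ∫ v in Y, ∫ v' in Y, G (κ * (v - v')) ≤ B * (y0 * y1) + y0 * Real.sqrt J := by
  have hB0 : 0 ≤ B := (h0 0).trans (hB 0)
  have hYv : volume Y ≤ 1 := (measure_mono hY1).trans (by rw [Real.volume_Icc]; norm_num)
  have hYt : volume Y ≠ ⊤ := ne_top_of_le_ne_top ENNReal.one_ne_top hYv
  have hy00 : 0 ≤ y0 := measureReal_nonneg.trans hy0
  have hy10 : 0 ≤ y1 := measureReal_nonneg.trans (hy1 0)
  have hm2 : Measurable fun u : ℝ => G u ^ 2 := hG.measurable.pow_const 2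
  have hJ0 : 0 ≤ J := le_trans (integral_nonneg fun v => integral_nonneg fun v' => sq_nonneg _) hJ
  have hI : IntegrableOn (fun v : ℝ => ∫ v' in Y ∩ {v' | θ ≤ |v - v'|}, G (κ * (v - v')) ^ 2) Y :=
    ALM_ib Y hY1 _ (B ^ 2) (ALM_sm2 (fun u => G u ^ 2) Y θ hm2 κ) (fun v => integral_nonneg fun _ => sq_nonneg _)
      fun v => (ALM_in _ (inter_subset_left.trans hY1) _ (B ^ 2) (fun _ => sq_nonneg _) fun _ => pow_le_pow_left₀ (h0 _) (hB _) 2).2.2
  have hL : IntegrableOn (fun v : ℝ => ∫ v' in Y, G (κ * (v - v'))) Y := by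
    refine ALM_ib Y hY1 _ B ?_ (fun v => integral_nonneg fun _ => h0 _) fun v => (ALM_in _ hY1 _ B (fun _ => h0 _) fun _ => hB _).2.2
    have h1 : StronglyMeasurable (fun q : ℝ × ℝ => G (κ * (q.1 - q.2))) := Measurable.stronglyMeasurable (hG.measurable.comp (by fun_prop))
    exact h1.integral_prod_right' (ν := volume.restrict Y)
  have h2 : ∀ l : ℝ, 0 < l → (∫ v in Y, ∫ v' in Y, G (κ * (v - v'))) - B * (y0 * y1) ≤ l * y0 ^ 2 / 2 + J / (2 * l) := by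
    intro l hl
    have h3 : ∫ v in Y, ∫ v' in Y, G (κ * (v - v')) ≤ ∫ v in Y, ((B * y1 + l * y0 / 2) + 1 / (2 * l) * ∫ v' in Y ∩ {v' | θ ≤ |v - v'|}, G (κ * (v - v')) ^ 2) := by
      refine setIntegral_mono hL ((integrableOn_const hYt).add (hI.const_mul _)) fun v => ?_
      exact ALM_split G Y θ κ B y0 y1 hG h0 hB hY hY1 hy0 hy1 l hl v
    have hk1 : IntegrableOn (fun _ : ℝ => B * y1 + l * y0 / 2) Y := integrableOn_const hYt
    have hk2 : IntegrableOn (fun v : ℝ => 1 / (2 * l) * ∫ v' in Y ∩ {v' | θ ≤ |v - v'|}, G (κ * (v - v')) ^ 2) Y := hI.const_mul _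
    rw [integral_add hk1 hk2, integral_const_mul, setIntegral_const, smul_eq_mul] at h3
    have h4 : volume.real Y * (B * y1 + l * y0 / 2) ≤ y0 * (B * y1 + l * y0 / 2) := mul_le_mul_of_nonneg_right hy0 (by positivity)
    have h5 : 1 / (2 * l) * ∫ v in Y, ∫ v' in Y ∩ {v' | θ ≤ |v - v'|}, G (κ * (v - v')) ^ 2 ≤ 1 / (2 * l) * J := mul_le_mul_of_nonneg_left hJ (by positivity)
    have h6 : 1 / (2 * l) * J = J / (2 * l) := by ring
    nlinarith
  have h7 := ALM_cs _ y0 J hy00 hJ0 h2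
  linarith

end three

theorem ALM_proof (hCEL : CEL_stmt) (hYAV : YAV_stmt) : ALM_stmt := by
  obtain ⟨C, hC, hCEL⟩ := hCEL
  refine ⟨Real.sqrt (2 * C), Real.sqrt_pos.2 (by linarith), ?_⟩
  intro S P X M M1 F ϑ θ0 R L hS hϑ hϑ1 hθ hθ1 hR hL
  obtain ⟨Q, hQ, hcell⟩ := hCEL S P X M M1 F ϑ θ0 R L hS hϑ hϑ1 hθ hθ1 hR hL
  refine ⟨Q, hQ, ?_⟩
  intro k w κ Y y0 y1 y2 hk hkQ hw1 hw2 hκ1 hκ2 hY hY1 hy0 hy1 hy2
  obtain ⟨Φ, hΦ⟩ : ∃ Φ, Φ = M ^ 2 * F ^ 2 * L / (θ0 * ϑ * R) + M * M1 * F ^ 3 := ⟨_, rfl⟩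
  have hc := hcell k hk hkQ
  rw [← hΦ] at hc ⊢
  have hL0 : (0 : ℝ) < L := by exact_mod_cast hL
  have hM0 : 0 ≤ M := le_trans (by positivity) hS.m0
  have hF0 : 0 ≤ F := hS.n2
  have hM10 : 0 ≤ M1 := hS.n1
  have hy00 : 0 ≤ y0 := measureReal_nonneg.trans hy0
  have hy20 : 0 ≤ y2 := measureReal_nonneg.trans (hy2 0)
  have hΦ0 : 0 ≤ Φ := by
    rw [hΦ]
    positivity
  obtain ⟨B, hB⟩ : ∃ B, B = M * F ^ 2 := ⟨_, rfl⟩
  have hGB : ∀ w u, GG S P X w u ≤ B := fun w u => by rw [hB]; exact ALM_b hS w u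
  have hB0 : 0 ≤ B := (ALM_n S P X 0 0).trans (hGB 0 0)
  -- the point w'
  have hUs : {u : ℝ | θ0 / 2 ≤ |u| ∧ |u| ≤ 8} ⊆ Icc (-8) 8 := fun u hu => abs_le.1 hu.2
  have hUv : volume {u : ℝ | θ0 / 2 ≤ |u| ∧ |u| ≤ 8} < ⊤ := lt_of_le_of_lt (measure_mono hUs) (by rw [Real.volume_Icc]; exact ENNReal.ofReal_lt_top)
  have hFm : StronglyMeasurable fun w : ℝ => ∫ u in {u : ℝ | θ0 / 2 ≤ |u| ∧ |u| ≤ 8}, GG S P X w u ^ 2 :=
    (((ALM_m S P X).pow_const 2).stronglyMeasurable).integral_prod_right' (ν := volume.restrict {u : ℝ | θ0 / 2 ≤ |u| ∧ |u| ≤ 8})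
  obtain ⟨w', hw', hF⟩ := ALM_ex (fun w : ℝ => ∫ u in {u : ℝ | θ0 / 2 ≤ |u| ∧ |u| ≤ 8}, GG S P X w u ^ 2) (k / L) ((k + 1) / L) (C / L * Φ)
    (B ^ 2 * volume.real {u : ℝ | θ0 / 2 ≤ |u| ∧ |u| ≤ 8}) (by
      apply div_lt_div_of_pos_right _ hL0
      linarith) hFm (fun w => integral_nonneg fun _ => sq_nonneg _) (fun w => by
      have h1 : ‖∫ u in {u : ℝ | θ0 / 2 ≤ |u| ∧ |u| ≤ 8}, GG S P X w u ^ 2‖ ≤ B ^ 2 * volume.real {u : ℝ | θ0 / 2 ≤ |u| ∧ |u| ≤ 8} :=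
        norm_setIntegral_le_of_norm_le_const hUv fun u _ => by
          rw [Real.norm_of_nonneg (sq_nonneg _)]
          exact pow_le_pow_left₀ (ALM_n S P X w u) (hGB w u) 2
      exact (le_abs_self _).trans h1) hc
  have hF2 : ∫ u in {u : ℝ | θ0 / 2 ≤ |u| ∧ |u| ≤ 8}, GG S P X w' u ^ 2 ≤ C * Φ := by
    refine hF.trans (le_of_eq ?_)
    field_simp
    ring
  -- the point κ'
  have hYA := hYAV (fun u => GG S P X w' u ^ 2) Y κ θ0 y0 y2 L ((ALM_c S P X w').pow 2) (fun _ => sq_nonneg _) hY hY1 hκ1 hκ2 hθ hθ1 hL hy0 hy2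
  have hYA2 : ∫ κ' in Icc κ (κ * (1 + 1 / L)), ∫ v in Y, ∫ v' in Y ∩ {v' | θ0 ≤ |v - v'|}, GG S P X w' (κ' * (v - v')) ^ 2 ≤ y0 * y2 / θ0 * (C * Φ) :=
    hYA.trans (mul_le_mul_of_nonneg_left hF2 (by positivity))
  have hlt : κ < κ * (1 + 1 / L) := by
    have h1 : 0 < κ * (1 / L) := by positivity
    linarith
  obtain ⟨κ', hκ', hJ⟩ := ALM_ex (fun κ' : ℝ => ∫ v in Y, ∫ v' in Y ∩ {v' | θ0 ≤ |v - v'|}, GG S P X w' (κ' * (v - v')) ^ 2) κ (κ * (1 + 1 / L)) _ (B ^ 2) hlt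
    (ALM_sm3 (fun u => GG S P X w' u ^ 2) Y θ0 ((ALM_c S P X w').measurable.pow_const 2)) (fun _ => integral_nonneg fun _ => integral_nonneg fun _ => sq_nonneg _)
    (fun κ' => (ALM_in _ hY1 _ (B ^ 2) (fun _ => integral_nonneg fun _ => sq_nonneg _) fun v =>
      (ALM_in _ (inter_subset_left.trans hY1) _ (B ^ 2) (fun _ => sq_nonneg _) fun _ => pow_le_pow_left₀ (ALM_n S P X _ _) (hGB _ _) 2).2.2).2.2) hYA2
  have hJ2 : ∫ v in Y, ∫ v' in Y ∩ {v' | θ0 ≤ |v - v'|}, GG S P X w' (κ' * (v - v')) ^ 2 ≤ 2 * C * (y0 * y2 * (L / θ0) * Φ) := by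
    refine hJ.trans ?_
    have h1 : κ * (1 + 1 / (L : ℝ)) - κ = κ / L := by ring
    rw [h1, div_div_eq_mul_div, div_le_iff₀ (by linarith)]
    have h2 : y0 * y2 / θ0 * (C * Φ) * L = C * (y0 * y2 * (L / θ0) * Φ) := by ring
    rw [h2]
    have h3 : 0 ≤ C * (y0 * y2 * (L / θ0) * Φ) := by positivity
    nlinarith
  refine ⟨w', κ', ?_, ?_, hκ'.1, hκ'.2, ?_⟩
  · have h1 : ((k : ℝ) + 1) / L = k / L + 1 / L := by ring
    rw [h1] at hw2 hw'
    rw [abs_le]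
    exact ⟨by linarith [hw'.1], by linarith [hw'.2]⟩
  · have h1 : 16 * (|(k : ℝ)| + 1) ≤ L := by exact_mod_cast hk
    have h2 : (|(k : ℝ)| + 1) / L ≤ 1 / 16 := by
      rw [div_le_div_iff₀ hL0 (by norm_num)]
      linarith
    have h3 : -((|(k : ℝ)| + 1) / L) ≤ k / L := by
      rw [← neg_div]
      exact div_le_div_of_nonneg_right (by linarith [neg_abs_le (k : ℝ)]) hL0.le
    have h4 : ((k : ℝ) + 1) / L ≤ (|(k : ℝ)| + 1) / L := div_le_div_of_nonneg_right (by linarith [le_abs_self (k : ℝ)]) hL0.le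
    rw [abs_le]
    exact ⟨by linarith [hw'.1], by linarith [hw'.2]⟩
  · have h1 := ALM_dbl (fun u => GG S P X w' u) Y θ0 κ' B y0 y1 (ALM_c S P X w') (fun _ => ALM_n S P X _ _) (fun _ => hGB _ _) hY hY1 hy0 hy1 _ hJ2
    have h2 : y0 * Real.sqrt (2 * C * (y0 * y2 * (L / θ0) * Φ)) = Real.sqrt (2 * C) * (y0 * Real.sqrt (y0 * y2 * (L / θ0) * Φ)) := by
      rw [Real.sqrt_mul (by positivity)]
      ring
    rw [h2, hB] at h1
    have h3 : ∀ i ∈ S, 0 ≤ ∫ v in Y, ∫ v' in Y, ‖ps (P i) (κ' * om w' (X i) * (v - v'))‖ ^ 2 := fun i _ => integral_nonneg fun _ => integral_nonneg fun _ => sq_nonneg _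
    have h4 : (∑ i ∈ S, Real.sqrt (∫ v in Y, ∫ v' in Y, ‖ps (P i) (κ' * om w' (X i) * (v - v'))‖ ^ 2)) ^ 2 ≤
        S.card * ∑ i ∈ S, ∫ v in Y, ∫ v' in Y, ‖ps (P i) (κ' * om w' (X i) * (v - v'))‖ ^ 2 := by
      refine sq_sum_le_card_mul_sum_sq.trans (le_of_eq ?_)
      congr 1
      exact Finset.sum_congr rfl fun i hi => Real.sq_sqrt (h3 i hi)
    have hc2 : ∀ i, Continuous fun u : ℝ => ‖ps (P i) (κ' * om w' (X i) * u)‖ ^ 2 := fun i => ((ALM_psc (P i)).comp (continuous_const.mul continuous_id)).norm.pow 2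
    have h5 : ∑ i ∈ S, ∫ v in Y, ∫ v' in Y, ‖ps (P i) (κ' * om w' (X i) * (v - v'))‖ ^ 2 = ∫ v in Y, ∫ v' in Y, GG S P X w' (κ' * (v - v')) := by
      rw [← integral_finsetSum]
      · refine integral_congr_ae (Eventually.of_forall fun v => ?_)
        show ∑ i ∈ S, ∫ v' in Y, ‖ps (P i) (κ' * om w' (X i) * (v - v'))‖ ^ 2 = ∫ v' in Y, GG S P X w' (κ' * (v - v'))
        rw [← integral_finsetSum]
        · refine integral_congr_ae (Eventually.of_forall fun v' => ?_)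
          show ∑ i ∈ S, ‖ps (P i) (κ' * om w' (X i) * (v - v'))‖ ^ 2 = GG S P X w' (κ' * (v - v'))
          unfold GG
          refine Finset.sum_congr rfl fun i _ => ?_
          congr 3
          ring
        · intro i _
          exact ALM_ib Y hY1 _ (((P i).card : ℝ) ^ 2) ((hc2 i).comp (continuous_const.sub continuous_id)).measurable.stronglyMeasurable (fun _ => sq_nonneg _)
            fun _ => pow_le_pow_left₀ (norm_nonneg _) (ALM_psb _ _) 2
      · intro i _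
        refine ALM_ib Y hY1 _ (((P i).card : ℝ) ^ 2) ?_ (fun _ => integral_nonneg fun _ => sq_nonneg _)
          fun v => (ALM_in Y hY1 _ (((P i).card : ℝ) ^ 2) (fun _ => sq_nonneg _) fun _ => pow_le_pow_left₀ (norm_nonneg _) (ALM_psb _ _) 2).2.2
        have h6 : StronglyMeasurable (fun q : ℝ × ℝ => ‖ps (P i) (κ' * om w' (X i) * (q.1 - q.2))‖ ^ 2) := ((hc2 i).comp (continuous_fst.sub continuous_snd)).measurable.stronglyMeasurable
        exact h6.integral_prod_right' (ν := volume.restrict Y)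
    rw [h5] at h4
    refine h4.trans ?_
    have h7 : 0 ≤ ∫ v in Y, ∫ v' in Y, GG S P X w' (κ' * (v - v')) := integral_nonneg fun _ => integral_nonneg fun _ => ALM_n S P X _ _
    exact (mul_le_mul_of_nonneg_right hS.m0 h7).trans (mul_le_mul_of_nonneg_left h1 hM0)

end Pool.Agent.IR
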